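import Mathlib
import Pool.Agent.Helper73.Dom.Final

set_option autoImplicit false

/-!
Domination polynomials need not be unimodal: an explicit valley in the coefficient sequence of the
domination polynomial of a connected graph on 11104 vertices.
-/

namespace Pool.Agent.Results.MP_e5f8e2_co.ConnectedCounterexample

open Pool.Agent.Helper73.Dom

/-- `S` is a dominating set of `G`: every vertex outside `S` has a neighbour in `S`. -/
def IsDominating {V : Type} (G : SimpleGraph V) (S : Finset V) : Prop :=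
  ∀ v, v ∉ S → ∃ u ∈ S, G.Adj v u

/-- `d(G,i)`: the number of dominating sets of `G` with exactly `i` elements. -/
noncomputable def domCount {V : Type} [Fintype V] (G : SimpleGraph V) (i : ℕ) : ℕ :=
  {S : Finset V | S.card = i ∧ IsDominating G S}.ncard

/-- The domination polynomial `D(G,x) = ∑_{i=0}^{n} d(G,i) x^i`, `n` the number of vertices. -/
noncomputable def domPoly {V : Type} [Fintype V] (G : SimpleGraph V) : Polynomial ℕ :=
  ∑ i ∈ Finset.range (Fintype.card V + 1), Polynomial.monomial i (domCount G i)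

lemma coeff_domPoly {V : Type} [Fintype V] (G : SimpleGraph V) (i : ℕ)
    (hi : i ≤ Fintype.card V) : (domPoly G).coeff i = domCount G i := by
  unfold domPoly
  rw [Polynomial.finsetSum_coeff]
  rw [Finset.sum_eq_single i]
  · simp
  · intro j _ hj
    rw [Polynomial.coeff_monomial, if_neg hj]
  · intro h
    exact absurd (Finset.mem_range.mpr (by omega)) h

lemma domCount_eq (i : ℕ) : domCount (gr 4 52 32 20) i = dnum i := by
  unfold domCount dnum IsDominating
  congr 1
  ext S
  simp only [Set.mem_ofPred_eq]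
  constructor
  · rintro ⟨h1, h2⟩
    exact ⟨h1, fun v => by
      by_cases hv : v ∈ S
      · exact Or.inl hv
      · exact Or.inr (h2 v hv)⟩
  · rintro ⟨h1, h2⟩
    exact ⟨h1, fun v hv => (h2 v).resolve_left hv⟩

lemma card_V : Fintype.card (Vx 4 52 32 20) = 11104 := by
  simp [Vx, Fintype.card_sum, Fintype.card_prod]

lemma adj_of_rel {a b m s : ℕ} {x y : Vx a b m s} (h : rel a b m s x y) (hne : x ≠ y) :
    (gr a b m s).Adj x y := by
  rw [gr, SimpleGraph.fromRel_adj]
  exact ⟨hne, Or.inl h⟩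

/-- every vertex is reachable from the vertex `u (0,0)` -/
lemma reach (a b m s : ℕ) (ha : 0 < a) (hb : 0 < b) (hm : 0 < m) (hs : 0 < s)
    (v : Vx a b m s) :
    (gr a b m s).Reachable v (Sum.inl (⟨0, ha⟩, ⟨0, hb⟩)) := by
  -- all `u (i, j)` with the same `i` are joined through `w (i, 0)`
  have huw : ∀ (i : Fin a) (j : Fin b) (t : Fin s),
      (gr a b m s).Reachable (Sum.inl (i, j)) (Sum.inr (Sum.inl (i, t))) := fun i j t =>
    (adj_of_rel (a := a) (b := b) (m := m) (s := s) (x := Sum.inl (i, j))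
      (y := Sum.inr (Sum.inl (i, t))) rfl (by simp)).reachable
  have huu : ∀ (i : Fin a) (j j' : Fin b),
      (gr a b m s).Reachable (Sum.inl (i, j)) (Sum.inl (i, j')) := fun i j j' =>
    (huw i j ⟨0, hs⟩).trans (huw i j' ⟨0, hs⟩).symm
  have hup : ∀ (i : Fin a) (j : Fin b) (t : Fin m),
      (gr a b m s).Reachable (Sum.inl (i, j)) (Sum.inr (Sum.inr (Sum.inr ((j, t), i)))) :=
    fun i j t => (adj_of_rel (a := a) (b := b) (m := m) (s := s) (x := Sum.inl (i, j))
      (y := Sum.inr (Sum.inr (Sum.inr ((j, t), i)))) ⟨rfl, rfl⟩ (by simp)).reachable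
  have hpp : ∀ (i i' : Fin a) (j : Fin b) (t : Fin m),
      (gr a b m s).Reachable (Sum.inr (Sum.inr (Sum.inr ((j, t), i))))
        (Sum.inr (Sum.inr (Sum.inr ((j, t), i')))) := by
    intro i i' j t
    by_cases h : i = i'
    · rw [h]
    · exact (adj_of_rel (a := a) (b := b) (m := m) (s := s)
        (x := Sum.inr (Sum.inr (Sum.inr ((j, t), i))))
        (y := Sum.inr (Sum.inr (Sum.inr ((j, t), i')))) rfl (by simpa using h)).reachable
  have huc : ∀ (i : Fin a) (t : Fin s) (j : Fin b),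
      (gr a b m s).Reachable (Sum.inl (i, j)) (Sum.inr (Sum.inr (Sum.inl ((i, t), j)))) :=
    fun i t j => (adj_of_rel (a := a) (b := b) (m := m) (s := s) (x := Sum.inl (i, j))
      (y := Sum.inr (Sum.inr (Sum.inl ((i, t), j)))) ⟨rfl, rfl⟩ (by simp)).reachable
  have hu : ∀ (i : Fin a) (j : Fin b),
      (gr a b m s).Reachable (Sum.inl (i, j)) (Sum.inl (⟨0, ha⟩, ⟨0, hb⟩)) := by
    intro i j
    have h1 := huu i j ⟨0, hb⟩
    have h2 := hup i ⟨0, hb⟩ ⟨0, hm⟩
    have h3 := hpp i ⟨0, ha⟩ ⟨0, hb⟩ ⟨0, hm⟩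
    have h4 := hup ⟨0, ha⟩ ⟨0, hb⟩ ⟨0, hm⟩
    exact ((h1.trans h2).trans h3).trans h4.symm
  rcases v with ⟨i, j⟩ | ⟨i, t⟩ | ⟨⟨i, t⟩, j⟩ | ⟨⟨j, t⟩, i⟩
  · exact hu i j
  · exact (huw i ⟨0, hb⟩ t).symm.trans (hu i ⟨0, hb⟩)
  · exact (huc i t j).symm.trans (hu i j)
  · exact (hup i j t).symm.trans (hu i j)

lemma connected_gr : (gr 4 52 32 20).Connected := by
  rw [SimpleGraph.connected_iff]
  refine ⟨fun x y => ?_, ⟨Sum.inl (⟨0, by norm_num⟩, ⟨0, by norm_num⟩)⟩⟩
  exact (reach 4 52 32 20 (by norm_num) (by norm_num) (by norm_num) (by norm_num) x).trans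
    (reach 4 52 32 20 (by norm_num) (by norm_num) (by norm_num) (by norm_num) y).symm

/-- There is a finite connected simple graph `G` on 11104 vertices whose domination polynomial is
not unimodal: with `i = 5673 < j = 5727 < k = 5740` one has `d(G,j) < d(G,i)` and
`d(G,j) < d(G,k)`. -/
theorem result :
    ∃ (V : Type) (_ : Fintype V) (G : SimpleGraph V), Fintype.card V = 11104 ∧ G.Connected ∧
      (domPoly G).coeff 5727 < (domPoly G).coeff 5673 ∧
      (domPoly G).coeff 5727 < (domPoly G).coeff 5740 := by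
  refine ⟨Vx 4 52 32 20, inferInstance, gr 4 52 32 20, card_V, connected_gr, ?_, ?_⟩
  · rw [coeff_domPoly _ _ (by rw [card_V]; norm_num), coeff_domPoly _ _ (by rw [card_V]; norm_num),
      domCount_eq, domCount_eq]
    exact dnum_lt_left
  · rw [coeff_domPoly _ _ (by rw [card_V]; norm_num), coeff_domPoly _ _ (by rw [card_V]; norm_num),
      domCount_eq, domCount_eq]
    exact dnum_lt_right

end Pool.Agent.Results.MP_e5f8e2_co.ConnectedCounterexample
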